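import Mathlib

open MeasureTheory Filter Topology Set

namespace Pool.Agent.Results.MP_842b9f_an.NotEveryBase

/-- `ε` is a `β`-expansion of `x`: all digits lie in `{0, …, ⌈β⌉ - 1}` and
`x = ∑ ε i / β ^ (i + 1)`. -/
def IsExpansion (β x : ℝ) (ε : ℕ → ℕ) : Prop :=
  (∀ i, ε i < ⌈β⌉₊) ∧ HasSum (fun i => (ε i : ℝ) / β ^ (i + 1)) x

/-- The digit `j` has frequency `q` in the sequence `ε`. -/
def HasFreq (ε : ℕ → ℕ) (j : ℕ) (q : ℝ) : Prop :=
  Tendsto (fun n : ℕ => (((Finset.range n).filter (fun i => ε i = j)).card : ℝ) / n) atTop (𝓝 q)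

/-- The interval `I_β = [0, (⌈β⌉ - 1) / (β - 1)]`. -/
def Interval (β : ℝ) : Set ℝ := Icc 0 (((⌈β⌉₊ : ℝ) - 1) / (β - 1))

/-- `β` is an almost variational frequency base. -/
def IsAlmostVariational (β : ℝ) : Prop :=
  ∃ c : ℝ, 0 < c ∧ ∀ p : Fin ⌈β⌉₊ → ℝ,
    (∀ j, p j ∈ Icc (1 / (⌈β⌉₊ : ℝ) - c) (1 / (⌈β⌉₊ : ℝ) + c)) → ∑ j, p j = 1 →
    ∀ᵐ x ∂(volume.restrict (Interval β)),
      ∃ ε : ℕ → ℕ, IsExpansion β x ε ∧ ∀ j : Fin ⌈β⌉₊, HasFreq ε j (p j)

/-! ### Words -/

/-- value of a word -/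
noncomputable def val (β : ℝ) : List ℕ → ℝ
  | [] => 0
  | d :: w => ((d : ℝ) + val β w) / β

/-- number of middle digits (`1` or `2`) -/
def mid : List ℕ → ℕ
  | [] => 0
  | d :: w => (if d = 1 ∨ d = 2 then 1 else 0) + mid w

/-- forbidden starts `100`, `200`, `233` -/
def bad : ℕ → List ℕ → Bool
  | 1, 0 :: 0 :: _ => true
  | 2, 0 :: 0 :: _ => true
  | 2, 3 :: 3 :: _ => true
  | _, _ => false

/-- prepend a digit and rewrite once if necessary -/
def fix : ℕ → List ℕ → List ℕ
  | 1, 0 :: 0 :: r => 0 :: 3 :: 3 :: r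
  | 2, 0 :: 0 :: r => 1 :: 3 :: 3 :: r
  | 2, 3 :: 3 :: r => 3 :: 0 :: 0 :: r
  | d, w => d :: w

/-- canonical form -/
def canon : List ℕ → List ℕ
  | [] => []
  | d :: w => fix d (canon w)

/-- list of canonical words of length `L` -/
def canonWords : ℕ → List (List ℕ)
  | 0 => [[]]
  | L + 1 => (canonWords L).flatMap
      (fun w => (([0, 1, 2, 3] : List ℕ).filter (fun d => !bad d w)).map (fun d => d :: w))


lemma mem_canonWords_zero {w : List ℕ} : w ∈ canonWords 0 ↔ w = [] := by
  simp [canonWords]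

lemma mem_canonWords_succ {L d : ℕ} {w : List ℕ} :
    d :: w ∈ canonWords (L + 1) ↔ w ∈ canonWords L ∧ d < 4 ∧ bad d w = false := by
  simp only [canonWords, List.mem_flatMap, List.mem_map, List.mem_filter]
  constructor
  · rintro ⟨v, hv, e, ⟨he, hb⟩, h⟩
    obtain ⟨rfl, rfl⟩ := List.cons.inj h
    refine ⟨hv, ?_, by simpa using hb⟩
    simp at he
    omega
  · rintro ⟨hw, hd, hb⟩
    refine ⟨w, hw, d, ⟨?_, by simpa using hb⟩, rfl⟩
    interval_cases d <;> simp

lemma fix_length (d : ℕ) (w : List ℕ) : (fix d w).length = w.length + 1 := by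
  unfold fix
  split <;> simp

lemma fix_mid (d : ℕ) (w : List ℕ) :
    mid (fix d w) ≤ (if d = 1 ∨ d = 2 then 1 else 0) + mid w := by
  unfold fix
  split <;> simp [mid]

lemma fix_val {β : ℝ} (h0 : β ≠ 0) (h : β ^ 2 = 3 * β + 3) (d : ℕ) (w : List ℕ) :
    val β (fix d w) = ((d : ℝ) + val β w) / β := by
  unfold fix
  split
  · rename_i r
    simp only [val]
    field_simp
    push_cast
    nlinarith [h]
  · rename_i r
    simp only [val]
    field_simp
    push_cast
    nlinarith [h]
  · rename_i r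
    simp only [val]
    field_simp
    push_cast
    nlinarith [h]
  · simp [val]

lemma fix_mem {L d : ℕ} {w : List ℕ} (hd : d < 4) (hw : w ∈ canonWords L) :
    fix d w ∈ canonWords (L + 1) := by
  unfold fix
  split
  · rename_i r
    rcases L with _ | L
    · simp [canonWords] at hw
    rw [mem_canonWords_succ] at hw
    rcases L with _ | L
    · simp [canonWords] at hw
    have h1 := hw.1
    rw [mem_canonWords_succ] at h1
    rw [mem_canonWords_succ, mem_canonWords_succ, mem_canonWords_succ]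
    refine ⟨⟨⟨h1.1, by norm_num, ?_⟩, by norm_num, ?_⟩, by norm_num, ?_⟩ <;> simp [bad]
  · rename_i r
    rcases L with _ | L
    · simp [canonWords] at hw
    rw [mem_canonWords_succ] at hw
    rcases L with _ | L
    · simp [canonWords] at hw
    have h1 := hw.1
    rw [mem_canonWords_succ] at h1
    rw [mem_canonWords_succ, mem_canonWords_succ, mem_canonWords_succ]
    refine ⟨⟨⟨h1.1, by norm_num, ?_⟩, by norm_num, ?_⟩, by norm_num, ?_⟩ <;> simp [bad]
  · rename_i r
    rcases L with _ | L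
    · simp [canonWords] at hw
    rw [mem_canonWords_succ] at hw
    rcases L with _ | L
    · simp [canonWords] at hw
    have h1 := hw.1
    rw [mem_canonWords_succ] at h1
    rw [mem_canonWords_succ, mem_canonWords_succ, mem_canonWords_succ]
    refine ⟨⟨⟨h1.1, by norm_num, ?_⟩, by norm_num, ?_⟩, by norm_num, ?_⟩ <;> simp [bad]
  · rename_i h1 h2 h3
    rw [mem_canonWords_succ]
    refine ⟨hw, hd, ?_⟩
    unfold bad
    split
    · exact absurd rfl (h1 _ rfl)
    · exact absurd rfl (h2 _ rfl)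
    · exact absurd rfl (h3 _ rfl)
    · rfl

lemma canon_length (w : List ℕ) : (canon w).length = w.length := by
  induction w with
  | nil => rfl
  | cons d w ih => simp only [canon, fix_length, ih, List.length_cons]

lemma canon_mid (w : List ℕ) : mid (canon w) ≤ mid w := by
  induction w with
  | nil => simp [canon]
  | cons d w ih =>
    calc mid (canon (d :: w)) = mid (fix d (canon w)) := rfl
      _ ≤ (if d = 1 ∨ d = 2 then 1 else 0) + mid (canon w) := fix_mid _ _
      _ ≤ (if d = 1 ∨ d = 2 then 1 else 0) + mid w := by omega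
      _ = mid (d :: w) := rfl

lemma canon_val {β : ℝ} (h0 : β ≠ 0) (h : β ^ 2 = 3 * β + 3) (w : List ℕ) :
    val β (canon w) = val β w := by
  induction w with
  | nil => rfl
  | cons d w ih =>
    calc val β (canon (d :: w)) = val β (fix d (canon w)) := rfl
      _ = ((d : ℝ) + val β (canon w)) / β := fix_val h0 h _ _
      _ = val β (d :: w) := by rw [ih]; rfl

lemma canon_mem (w : List ℕ) (hw : ∀ d ∈ w, d < 4) : canon w ∈ canonWords w.length := by
  induction w with
  | nil => simp [canon, canonWords]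
  | cons d w ih =>
    exact fix_mem (hw d (by simp)) (ih fun e he => hw e (by simp [he]))

/-- weights of the initial state of a canonical word -/
def wt : List ℕ → ℝ
  | 0 :: 0 :: _ => 3591
  | 0 :: _ => 8604
  | 3 :: 3 :: _ => 6796
  | 3 :: _ => 9302
  | _ => 10000

lemma wt_ge (w : List ℕ) : 3591 ≤ wt w := by
  unfold wt
  split <;> norm_num

lemma wt_step (w : List ℕ) (hw : ∀ d ∈ w, d < 4) :
    ((((([0, 1, 2, 3] : List ℕ).filter (fun d => !bad d w)).map (fun d => d :: w)).map
      (fun v => (9 / 10 : ℝ) ^ mid v * wt v)).sum) ≤ (3591 / 1000) * ((9 / 10 : ℝ) ^ mid w * wt w) := by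
  rcases w with _ | ⟨a, w⟩
  · simp [bad, mid, wt]
    norm_num
  · have ha : a < 4 := hw a (by simp)
    rcases w with _ | ⟨b, w⟩
    · interval_cases a <;> simp [bad, mid, wt] <;> norm_num
    · have hb : b < 4 := hw b (by simp)
      have hp : (0 : ℝ) < (9 / 10 : ℝ) ^ mid w := by positivity
      interval_cases a <;> interval_cases b <;>
        simp [bad, mid, wt, pow_add] <;> nlinarith

lemma canonWords_digit {L : ℕ} {w : List ℕ} (hw : w ∈ canonWords L) : ∀ d ∈ w, d < 4 := by
  induction L generalizing w with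
  | zero => simp [canonWords] at hw; subst hw; simp
  | succ L ih =>
    rcases w with _ | ⟨a, w⟩
    · simp
    · rw [mem_canonWords_succ] at hw
      intro d hd
      rcases List.mem_cons.1 hd with rfl | hd
      · exact hw.2.1
      · exact ih hw.1 d hd

lemma sum_flatMap_le {α : Type*} (l : List α) (f : α → List α) (g : α → ℝ) (c : ℝ)
    (h : ∀ a ∈ l, ((f a).map g).sum ≤ c * g a) :
    ((l.flatMap f).map g).sum ≤ c * (l.map g).sum := by
  induction l with
  | nil => simp
  | cons a l ih =>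
    simp only [List.flatMap_cons, List.map_append, List.sum_append, List.map_cons, List.sum_cons]
    have h1 := h a (by simp)
    have h2 := ih fun b hb => h b (by simp [hb])
    linarith

lemma sum_bound (L : ℕ) :
    ((canonWords L).map (fun v => (9 / 10 : ℝ) ^ mid v * wt v)).sum ≤ 10000 * (3591 / 1000) ^ L := by
  induction L with
  | zero => simp [canonWords, mid, wt]
  | succ L ih =>
    have := sum_flatMap_le (canonWords L) (fun w => (([0, 1, 2, 3] : List ℕ).filter
      (fun d => !bad d w)).map (fun d => d :: w)) (fun v => (9 / 10 : ℝ) ^ mid v * wt v)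
      (3591 / 1000) (fun w hw => wt_step w (canonWords_digit hw))
    calc _ ≤ _ := this
      _ ≤ (3591 / 1000) * (10000 * (3591 / 1000) ^ L) := by gcongr
      _ = _ := by ring

/-! ### Initial words of an expansion -/

/-- the first `L` digits of `ε` -/
def pre (ε : ℕ → ℕ) (L : ℕ) : List ℕ := (List.range L).map ε

lemma pre_succ (ε : ℕ → ℕ) (L : ℕ) : pre ε (L + 1) = ε 0 :: pre (fun i => ε (i + 1)) L := by
  unfold pre
  rw [List.range_succ_eq_map]
  simp [Function.comp_def]

lemma pre_length (ε : ℕ → ℕ) (L : ℕ) : (pre ε L).length = L := by simp [pre]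

lemma mid_append (w : List ℕ) (d : ℕ) :
    mid (w ++ [d]) = mid w + (if d = 1 ∨ d = 2 then 1 else 0) := by
  induction w with
  | nil => simp [mid]
  | cons e w ih => simp only [List.cons_append, mid, ih]; omega

lemma mid_pre (ε : ℕ → ℕ) (L : ℕ) :
    mid (pre ε L) = ((Finset.range L).filter (fun i => ε i = 1)).card +
      ((Finset.range L).filter (fun i => ε i = 2)).card := by
  induction L with
  | zero => simp [pre, mid]
  | succ L ih =>
    have h : pre ε (L + 1) = pre ε L ++ [ε L] := by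
      unfold pre; rw [List.range_succ]; simp
    rw [h, mid_append, ih, Finset.range_add_one, Finset.filter_insert, Finset.filter_insert]
    by_cases h1 : ε L = 1
    · have h2 : ¬ ε L = 2 := by omega
      simp [h1]; omega
    · by_cases h2 : ε L = 2
      · simp [h2]; omega
      · simp [h1, h2]

lemma pre_bound {β : ℝ} (hβ : 1 < β) (L : ℕ) : ∀ (ε : ℕ → ℕ) (x : ℝ), (∀ i, ε i < 4) →
    HasSum (fun i => (ε i : ℝ) / β ^ (i + 1)) x →
    x ∈ Icc (val β (pre ε L)) (val β (pre ε L) + 3 / (β - 1) / β ^ L) := by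
  have hβ0 : 0 < β := by linarith
  induction L with
  | zero =>
    intro ε x hd hs
    have h0 : 0 ≤ x := hs.nonneg fun i => by positivity
    have hg : HasSum (fun i : ℕ => (3 : ℝ) / β ^ (i + 1)) (3 / (β - 1)) := by
      have h1 : HasSum (fun i : ℕ => (β⁻¹) ^ i) (1 - β⁻¹)⁻¹ :=
        hasSum_geometric_of_lt_one (by positivity) (inv_lt_one_of_one_lt₀ hβ)
      have h2 := h1.mul_left (3 / β)
      have e1 : (fun i : ℕ => (3 : ℝ) / β * (β⁻¹) ^ i) = fun i : ℕ => (3 : ℝ) / β ^ (i + 1) := by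
        funext i
        rw [pow_succ, inv_pow]
        field_simp
      have e2 : 3 / β * (1 - β⁻¹)⁻¹ = 3 / (β - 1) := by
        have h3 : β - 1 ≠ 0 := by linarith
        have h4 : (1 : ℝ) - β⁻¹ ≠ 0 := by
          have : β⁻¹ < 1 := inv_lt_one_of_one_lt₀ hβ
          linarith
        field_simp
      rw [e1, e2] at h2
      exact h2
    have h1 : x ≤ 3 / (β - 1) := by
      refine hasSum_le (fun i => ?_) hs hg
      have : (ε i : ℝ) ≤ 3 := by exact_mod_cast Nat.lt_succ_iff.1 (hd i)
      gcongr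
    simp only [pre, List.range_zero, List.map_nil, val, pow_zero, div_one, zero_add]
    exact ⟨h0, h1⟩
  | succ L ih =>
    intro ε x hd hs
    have hs' : HasSum (fun i => (ε (i + 1) : ℝ) / β ^ (i + 1)) (β * x - ε 0) := by
      have h1 := (hasSum_nat_add_iff' 1).2 hs
      have h2 := h1.mul_left β
      have e1 : (fun i : ℕ => β * ((ε (i + 1) : ℝ) / β ^ (i + 1 + 1))) =
          fun i : ℕ => (ε (i + 1) : ℝ) / β ^ (i + 1) := by
        funext i
        rw [pow_succ β (i + 1)]
        field_simp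
      have e2 : β * (x - ∑ i ∈ Finset.range 1, (ε i : ℝ) / β ^ (i + 1)) = β * x - ε 0 := by
        rw [Finset.sum_range_one, zero_add, pow_one]
        field_simp
      rw [e1, e2] at h2
      exact h2
    have := ih (fun i => ε (i + 1)) (β * x - ε 0) (fun i => hd _) hs'
    rw [pre_succ]
    simp only [val]
    obtain ⟨h1, h2⟩ := this
    constructor
    · rw [div_le_iff₀ hβ0]; linarith
    · have h3 : ((ε 0 : ℝ) + val β (pre (fun i => ε (i + 1)) L)) / β + 3 / (β - 1) / β ^ (L + 1)
          = ((ε 0 : ℝ) + val β (pre (fun i => ε (i + 1)) L) + 3 / (β - 1) / β ^ L) / β := by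
        rw [pow_succ]
        field_simp
      rw [h3, le_div_iff₀ hβ0]
      linarith

/-! ### Measure estimate -/

/-- points covered by canonical words of length `L` with few middle digits -/
def cover (β : ℝ) (L : ℕ) : Set ℝ :=
  {x | ∃ w ∈ canonWords L, (mid w : ℝ) ≤ 51 / 100 * L ∧
    x ∈ Icc (val β w) (val β w + 3 / (β - 1) / β ^ L)}

lemma volume_list_le (l : List (List ℕ)) (P : List ℕ → Prop) (a : List ℕ → ℝ) (t : ℝ) (ht : 0 ≤ t)
    (g : List ℕ → ℝ) (hg : ∀ w, 0 ≤ g w) (hP : ∀ w, P w → 1 ≤ g w) :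
    volume {x | ∃ w ∈ l, P w ∧ x ∈ Icc (a w) (a w + t)} ≤ ENNReal.ofReal (t * (l.map g).sum) := by
  induction l with
  | nil => simp
  | cons v l ih =>
    have hsub : {x | ∃ w ∈ v :: l, P w ∧ x ∈ Icc (a w) (a w + t)} ⊆
        {x | P v ∧ x ∈ Icc (a v) (a v + t)} ∪ {x | ∃ w ∈ l, P w ∧ x ∈ Icc (a w) (a w + t)} := by
      rintro x ⟨w, hw, h1, h2⟩
      rcases List.mem_cons.1 hw with rfl | hw
      · exact Or.inl ⟨h1, h2⟩
      · exact Or.inr ⟨w, hw, h1, h2⟩
    have hl : 0 ≤ (l.map g).sum := by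
      apply List.sum_nonneg
      intro y hy
      obtain ⟨w, _, rfl⟩ := List.mem_map.1 hy
      exact hg w
    have h1 : volume {x | P v ∧ x ∈ Icc (a v) (a v + t)} ≤ ENNReal.ofReal (t * g v) := by
      by_cases hv : P v
      · have : {x | P v ∧ x ∈ Icc (a v) (a v + t)} = Icc (a v) (a v + t) := by
          ext x; simp [hv]
        rw [this, Real.volume_Icc]
        apply ENNReal.ofReal_le_ofReal
        have := hP v hv
        nlinarith
      · have : {x | P v ∧ x ∈ Icc (a v) (a v + t)} = ∅ := by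
          ext x; simp [hv]
        rw [this]; simp
    calc _ ≤ _ := measure_mono hsub
      _ ≤ _ := measure_union_le _ _
      _ ≤ ENNReal.ofReal (t * g v) + ENNReal.ofReal (t * (l.map g).sum) := add_le_add h1 ih
      _ = ENNReal.ofReal (t * ((v :: l).map g).sum) := by
        rw [← ENNReal.ofReal_add (mul_nonneg ht (hg v)) (mul_nonneg ht hl)]
        simp [mul_add]

lemma volume_cover_le {β : ℝ} (hβ : 1 < β) (L : ℕ) :
    volume (cover β L) ≤ ENNReal.ofReal (3 / (β - 1) * (10000 / 3591) *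
      ((3591 / 1000) / (β * (9 / 10 : ℝ) ^ (51 / 100 : ℝ))) ^ L) := by
  set κ : ℝ := (9 / 10 : ℝ) ^ (51 / 100 : ℝ) with hκ
  have hκ0 : 0 < κ := by positivity
  have hβ0 : 0 < β := by linarith
  have hβ1 : 0 < β - 1 := by linarith
  have h := volume_list_le (canonWords L) (fun w => (mid w : ℝ) ≤ 51 / 100 * L) (val β)
    (3 / (β - 1) / β ^ L) (by positivity)
    (fun w => ((9 / 10 : ℝ) ^ mid w * wt w) * (1 / (3591 * κ ^ L)))
    (fun w => by have := wt_ge w; positivity)
    (fun w hw => by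
      have h1 : κ ^ L ≤ (9 / 10 : ℝ) ^ mid w := by
        rw [hκ, ← Real.rpow_natCast, ← Real.rpow_natCast, ← Real.rpow_mul (by norm_num)]
        exact Real.rpow_le_rpow_of_exponent_ge (by norm_num) (by norm_num) hw
      have h2 := wt_ge w
      have h3 : 0 < κ ^ L := by positivity
      rw [mul_one_div, le_div_iff₀ (by positivity)]
      nlinarith)
  refine (le_of_eq_of_le rfl h).trans (ENNReal.ofReal_le_ofReal ?_)
  rw [List.sum_map_mul_right]
  have h4 := sum_bound L
  calc 3 / (β - 1) / β ^ L * (((canonWords L).map (fun v => (9 / 10 : ℝ) ^ mid v * wt v)).sum *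
        (1 / (3591 * κ ^ L)))
      ≤ 3 / (β - 1) / β ^ L * ((10000 * (3591 / 1000) ^ L) * (1 / (3591 * κ ^ L))) := by
        gcongr
    _ = _ := by
        rw [div_pow (3591 / 1000) (β * κ), mul_pow β κ]
        field_simp

/-! ### The base `β₀ = (3 + √21) / 2` -/

/-- the positive root of `x ^ 2 = 3 x + 3` -/
noncomputable def beta0 : ℝ := (3 + √21) / 2

lemma sqrt_bounds : (4.5825 : ℝ) < √21 ∧ √21 < 4.5826 := by
  constructor
  · rw [Real.lt_sqrt (by norm_num)]; norm_num
  · rw [Real.sqrt_lt' (by norm_num)]; norm_num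

lemma beta0_gt : (3.79125 : ℝ) < beta0 := by
  have := sqrt_bounds.1
  unfold beta0; linarith

lemma beta0_lt : beta0 < 3.7913 := by
  have := sqrt_bounds.2
  unfold beta0; linarith

lemma beta0_sq : beta0 ^ 2 = 3 * beta0 + 3 := by
  have h : √21 ^ 2 = (21 : ℝ) := Real.sq_sqrt (by norm_num)
  unfold beta0
  nlinarith [h]

lemma beta0_ceil : ⌈beta0⌉₊ = 4 := by
  rw [Nat.ceil_eq_iff (by norm_num)]
  constructor
  · have := beta0_gt; norm_num at this ⊢; linarith
  · have := beta0_lt; norm_num at this ⊢; linarith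

lemma ratio_lt_one : (3591 / 1000) / (beta0 * (9 / 10 : ℝ) ^ (51 / 100 : ℝ)) < 1 := by
  set κ : ℝ := (9 / 10 : ℝ) ^ (51 / 100 : ℝ) with hκ
  have hκ0 : 0 < κ := by positivity
  have hκ100 : κ ^ 100 = (9 / 10 : ℝ) ^ 51 := by
    rw [hκ, ← Real.rpow_natCast, ← Real.rpow_mul (by norm_num), ← Real.rpow_natCast]
    norm_num
  have hlt : (3591 / 3791.25 : ℝ) < κ := by
    refine lt_of_pow_lt_pow_left₀ 100 hκ0.le ?_
    rw [hκ100]
    norm_num
  have hb := beta0_gt
  rw [div_lt_one (by have : 0 < beta0 := by linarith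
                     positivity)]
  nlinarith

/-- the almost everywhere statement -/
lemma ae_not : ∀ᵐ x ∂(volume : Measure ℝ), ¬ ∃ ε : ℕ → ℕ, IsExpansion beta0 x ε ∧
    ∀ j : Fin ⌈beta0⌉₊, HasFreq ε j (1 / (⌈beta0⌉₊ : ℝ)) := by
  have hβ1 : 1 < beta0 := by have := beta0_gt; linarith
  have hβ0 : 0 < beta0 := by linarith
  set ρ : ℝ := (3591 / 1000) / (beta0 * (9 / 10 : ℝ) ^ (51 / 100 : ℝ)) with hρ
  have hρ0 : 0 ≤ ρ := by positivity
  have hρ1 : ρ < 1 := ratio_lt_one
  set K : ℝ := 3 / (beta0 - 1) * (10000 / 3591) with hK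
  have hβ2 : 0 < beta0 - 1 := by linarith
  have hK0 : 0 ≤ K := by positivity
  have hsum : ∑' L, volume (cover beta0 L) ≠ ⊤ := by
    refine ne_top_of_le_ne_top ?_ (ENNReal.tsum_le_tsum fun L => volume_cover_le hβ1 L)
    have hs : Summable fun L : ℕ => K * ρ ^ L := (summable_geometric_of_lt_one hρ0 hρ1).mul_left K
    exact hs.tsum_ofReal_ne_top
  filter_upwards [ae_eventually_notMem hsum] with x hx
  rintro ⟨ε, ⟨hd, hs⟩, hf⟩
  have hd4 : ∀ i, ε i < 4 := fun i => by have := hd i; rwa [beta0_ceil] at this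
  have h1 : HasFreq ε 1 (1 / 4) := by
    have := hf ⟨1, by rw [beta0_ceil]; norm_num⟩
    simpa [beta0_ceil] using this
  have h2 : HasFreq ε 2 (1 / 4) := by
    have := hf ⟨2, by rw [beta0_ceil]; norm_num⟩
    simpa [beta0_ceil] using this
  have h3 : Tendsto (fun L : ℕ => (mid (pre ε L) : ℝ) / L) atTop (𝓝 (1 / 4 + 1 / 4)) := by
    refine (h1.add h2).congr fun L => ?_
    rw [mid_pre]; push_cast; ring
  have h4 : ∀ᶠ L : ℕ in atTop, (mid (pre ε L) : ℝ) / L < 51 / 100 :=
    h3.eventually_lt_const (by norm_num)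
  obtain ⟨L, hL1, hL2, hL3⟩ := (hx.and (h4.and (eventually_gt_atTop 0))).exists
  apply hL1
  have hLpos : (0 : ℝ) < L := by exact_mod_cast hL3
  refine ⟨canon (pre ε L), ?_, ?_, ?_⟩
  · have := canon_mem (pre ε L) (fun d hd' => by
      unfold pre at hd'
      obtain ⟨i, _, rfl⟩ := List.mem_map.1 hd'
      exact hd4 i)
    rwa [pre_length] at this
  · have h5 : (mid (canon (pre ε L)) : ℝ) ≤ mid (pre ε L) := by exact_mod_cast canon_mid _
    rw [div_lt_iff₀ hLpos] at hL2
    linarith
  · rw [canon_val hβ0.ne' beta0_sq]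
    exact pre_bound hβ1 L ε x hd4 hs

/-- **Disproof.** The non-integer base `β = (3 + √21) / 2` is not an almost variational frequency
base; indeed almost every `x ∈ I_β` has no `β`-expansion in which all four digits have
frequency `1 / 4`. -/
theorem result : ∃ β : ℝ, β = (3 + √21) / 2 ∧ 1 < β ∧ (∀ k : ℤ, β ≠ k) ∧
    (∀ᵐ x ∂(volume.restrict (Interval β)), ¬ ∃ ε : ℕ → ℕ, IsExpansion β x ε ∧
      ∀ j : Fin ⌈β⌉₊, HasFreq ε j (1 / (⌈β⌉₊ : ℝ))) ∧
    ¬ IsAlmostVariational β := by
  have hae := ae_restrict_of_ae (s := Interval beta0) ae_not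
  refine ⟨beta0, rfl, by have := beta0_gt; linarith, ?_, hae, ?_⟩
  · intro k hk
    have h1 := beta0_gt
    have h2 := beta0_lt
    rw [hk] at h1 h2
    have h3 : (3 : ℝ) < k := by norm_num at h1 ⊢; linarith
    have h4 : (k : ℝ) < 4 := by norm_num at h2 ⊢; linarith
    have h5 : (3 : ℤ) < k := by exact_mod_cast h3
    have h6 : k < (4 : ℤ) := by exact_mod_cast h4
    omega
  · rintro ⟨c, hc, h⟩
    have h1 := h (fun _ => 1 / (⌈beta0⌉₊ : ℝ)) (fun j => ⟨by linarith, by linarith⟩) (by
      rw [beta0_ceil]; norm_num)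
    have h2 : ∀ᵐ x ∂(volume.restrict (Interval beta0)), False := by
      filter_upwards [h1, hae] with x hx hx'
      exact hx' hx
    rw [ae_iff] at h2
    simp only [not_false_eq_true, Set.ofPred_true, Measure.restrict_apply_univ] at h2
    unfold Interval at h2
    rw [beta0_ceil, Real.volume_Icc, ENNReal.ofReal_eq_zero] at h2
    have hb := beta0_gt
    have : 0 < (((4 : ℕ) : ℝ) - 1) / (beta0 - 1) := by
      apply div_pos <;> norm_num at hb ⊢ <;> linarith
    linarith

end Pool.Agent.Results.MP_842b9f_an.NotEveryBase
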